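import Pool.Agent.Helper75.OE.GoalsA2

/-!
# Project OE, packet OE-CHP: the number of the seeds for which the update is cheap
-/

namespace Pool.Agent.Helper86.OE

open Pool.Agent.Helper73.OE Pool.Agent.Helper73.OE.Sys Finset Pool.Agent.Helper75.OE

theorem chp (hpick : A_PICK) : A_CHP := by
  classical
  intro H S L _ _ X P O v s f y hy
  subst hy
  set A := X.AS P O f v s (X.tau (f (X.nb v s) (X.bar s))) with hA
  obtain ⟨h1, h2⟩ := hpick (Fin P.J × L) P.cap A
  symm
  have h3 : ∀ i, i ∈ A.filter (fun i => A.card ≤ P.cap ∧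
      (X.AS P O (X.TRi P O i v s (X.tau (f (X.nb v s) (X.bar s))) f) v s (f v s)).card ≤ P.cap) →
      ∃! u, pick P.cap A u = some i := by
    intro i hi
    have h4 := mem_filter.mp hi
    exact h2 h4.2.1 i h4.1
  refine Finset.card_bij (fun i hi => (h3 i hi).choose) ?_ ?_ ?_
  · intro i hi
    have h5 := (h3 i hi).choose_spec.1
    have h4 := mem_filter.mp hi
    obtain ⟨h6, h7, h8⟩ := h1 _ _ h5
    rw [mem_filter, mem_range]
    exact ⟨lt_of_lt_of_le h8 h7, i, h5, h4.2.2⟩
  · intro i hi i' hi' he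
    have h5 := (h3 i hi).choose_spec.1
    have h6 := (h3 i' hi').choose_spec.1
    have he' : (h3 i hi).choose = (h3 i' hi').choose := he
    rw [← he'] at h6
    have h7 : some i = some i' := (show pick P.cap A _ = some i from h5).symm.trans h6
    exact Option.some.inj h7
  · intro u hu
    rw [mem_filter] at hu
    obtain ⟨-, i, h5, h6⟩ := hu
    obtain ⟨h7, h8, h9⟩ := h1 _ _ h5
    have hi : i ∈ A.filter (fun i => A.card ≤ P.cap ∧
      (X.AS P O (X.TRi P O i v s (X.tau (f (X.nb v s) (X.bar s))) f) v s (f v s)).card ≤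
        P.cap) := mem_filter.mpr ⟨h7, h8, h6⟩
    refine ⟨i, hi, ?_⟩
    exact ((h3 i hi).choose_spec.2 u h5).symm

end Pool.Agent.Helper86.OE
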