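import Pool.Agent.Helper75.OE.GoalsA

/-!
Packet OE-PLOC (author helper75, MP_fc0446_an): the permutations made by the flip of a run happen on
the side and depend only on the side.
-/

namespace Pool.Agent.Helper86.OE

open Pool.Agent.Helper73.OE Pool.Agent.Helper73.OE.Sys Pool.Agent.Helper75.OE

theorem ploc : A_PLOC := by
  intro H S L _ X O O' v p y f g hy hM hg hO z n
  induction n generalizing v p y with
  | zero =>
    constructor
    · intro hz
      have hzv : z ≠ v := by
        rintro rfl
        exact hz (X.self_mem_Sd _ _)
      simp only [flipP, if_neg hzv]
    · simp only [flipP, hg v (X.self_mem_Sd _ _)]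
  | succ n ih =>
    have hgv : g v = f v := hg v (X.self_mem_Sd _ _)
    by_cases hzv : z = v
    · constructor
      · intro hz
        exact absurd (hzv ▸ X.self_mem_Sd _ _) hz
      · simp only [flipP, if_pos hzv, hgv]
    · have hsp : (f v).symm y ≠ p := by
        intro h
        apply hy
        rw [← h, Equiv.apply_symm_apply]
      have hsub := X.branch_subset (v := v) hsp
      have hv' : X.nb v ((f v).symm y) ∈ X.Sd v p := hsub (X.self_mem_Sd _ _)
      have hOO := hO v ((f v).symm y) (X.self_mem_Sd _ _) hv'
      by_cases ho : O v ((f v).symm y)
      · have hm := hM v _ (X.self_mem_Sd _ _) hv' ho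
        have hy' : X.tau (f v p) ≠
            f (X.nb v ((f v).symm y)) (X.bar ((f v).symm y)) := by
          intro h
          unfold Mt at hm
          rw [← h, Equiv.apply_symm_apply] at hm
          apply hy
          rw [← X.tau_tau y, ← hm, X.tau_tau]
        have key := ih (X.nb v ((f v).symm y)) (X.bar ((f v).symm y)) (X.tau (f v p)) hy'
          (fun a s ha hb => hM a s (hsub ha) (hsub hb)) (fun a ha => hg a (hsub ha))
          (fun a r ha hb => hO a r (hsub ha) (hsub hb))
        constructor
        · intro hz
          simp only [flipP, if_neg hzv, if_pos ho]
          exact key.1 fun h => hz (hsub h)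
        · have hog : O' v ((g v).symm y) := by
            rw [hgv]
            exact hOO.2 ho
          simp only [flipP, if_neg hzv, if_pos ho, if_pos hog]
          rw [hgv]
          exact key.2
      · constructor
        · intro _
          simp only [flipP, if_neg hzv, if_neg ho]
        · have hog : ¬ O' v ((g v).symm y) := by
            rw [hgv]
            exact fun h => ho (hOO.1 h)
          simp only [flipP, if_neg hzv, if_neg ho, if_neg hog]

end Pool.Agent.Helper86.OE
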