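import Pool.Agent.Helper75.OE.GoalsA2

/-!
# Project OE, packet OE-SIDE
-/

namespace Pool.Agent.Helper86.OE

open Pool.Agent.Helper73.OE Pool.Agent.Helper73.OE.Sys Finset Pool.Agent.Helper75.OE

theorem side (tloc : A_TLOC) : A_SIDE := by
  classical
  intro H S L _ _ X P O O' i v p y f f' hMA hf hO hy hi
  have h := tloc H S L X O O' P.M (2 * (i.1 : ℕ) + 1) v p y i.2 f f' hy.symm
    (fun z s _ _ ho => hMA z s (Set.mem_univ z) (Set.mem_univ _) ho)
    (fun z hz => (hf z hz).symm) (fun z r h1 h2 => (hO z r h1 h2).symm)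
  have hi1 : X.Av O P.M f (2 * (i.1 : ℕ) + 1) v p y i.2 := by
    have h2 := hi
    unfold Sys.AS at h2
    simpa using h2
  refine ⟨?_, fun z hz => ?_⟩
  · have h3 := h.1.mpr hi1
    unfold Sys.AS
    simpa using h3
  · exact ((h.2 hi1).2 z hz).symm

end Pool.Agent.Helper86.OE
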