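import Pool.Agent.Helper79.OE.GoalsD

/-!
# Project OE, packet OE-DIS: almost surely all the labels are different
-/

namespace Pool.Agent.Helper86.OE

open MeasureTheory Pool.Agent.Helper73.OE Pool.Agent.Helper79.OE

theorem dis : D_DIS := by
  intro H S _ _
  have h1 : ∀ e e' : H × S, ∀ᵐ η ∂(Sys.lamE H S), (η e).2 = (η e').2 → e = e' := by
    intro e e'
    by_cases he : e = e'
    · exact Filter.Eventually.of_forall fun _ _ => he
    · set T : Set ((unitInterval × unitInterval) × (unitInterval × unitInterval)) :=
        {z | z.1.2 = z.2.2} with hT
      have hTm : MeasurableSet T :=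
        measurableSet_eq_fun (measurable_snd.comp measurable_fst)
          (measurable_snd.comp measurable_snd)
      have h2 : ((volume : Measure (unitInterval × unitInterval)).prod
          (volume : Measure (unitInterval × unitInterval))) T = 0 := by
        rw [Measure.measure_prod_null hTm]
        refine Filter.Eventually.of_forall fun x => ?_
        have h3 : Prod.mk x ⁻¹' T = Set.univ ×ˢ {x.2} := by
          ext z
          simp only [hT, Set.mem_preimage, Set.mem_ofPred_eq, Set.mem_prod, Set.mem_univ,
            Set.mem_singleton_iff, true_and]
          exact eq_comm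
        change volume (Prod.mk x ⁻¹' T) = 0
        rw [h3, Measure.volume_eq_prod, Measure.prod_prod, measure_singleton, mul_zero]
      have h4 : (Sys.lamE H S).map (fun η => (η e, η e')) =
          (volume : Measure (unitInterval × unitInterval)).prod
          (volume : Measure (unitInterval × unitInterval)) :=
        Measure.infinitePi_map_eval_prod he
      have h5 : Sys.lamE H S ((fun η => (η e, η e')) ⁻¹' T) = 0 := by
        have h6 : Measurable (fun η : Env H S => (η e, η e')) :=
          (measurable_pi_apply e).prodMk (measurable_pi_apply e')
        rw [← Measure.map_apply h6 hTm, h4, h2]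
      rw [ae_iff]
      refine measure_mono_null ?_ h5
      intro η hη
      by_contra hcon
      exact hη fun h => absurd h hcon
  have h7 : ∀ᵐ η ∂(Sys.lamE H S), ∀ e e' : H × S, (η e).2 = (η e').2 → e = e' :=
    ae_all_iff.mpr fun e => ae_all_iff.mpr fun e' => h1 e e'
  exact h7

end Pool.Agent.Helper86.OE
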